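import Mathlib
import Pool.Agent.H355R2.Schinzel2
import Pool.Agent.H410R2.MFinal

set_option autoImplicit false

/-!
# MP_81c801_nt: ratios of shifted primes, both forms

The set `G` of positive rationals that have infinitely many representations as `(p+1)/(q+1)` and
infinitely many as `(p-1)/(q-1)` (Schinzel's question asks whether `G` is everything) is
multiplicatively syndetic: finitely many positive integers `e` are such that every positive rational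
`x` has some `x e ∈ G`.  In particular `G` contains a set of positive integers of positive lower
density.
-/

namespace Pool.Agent.Results.MP_81c801_nt.SyndeticBoth

open Finset Pool.Agent.H355R2.Schinzel

open Classical in
theorem result :
    (∃ E : Finset ℕ, (∀ e ∈ E, 0 < e) ∧ ∀ x : ℚ, 0 < x → ∃ e ∈ E,
      {z : ℕ × ℕ | z.1.Prime ∧ z.2.Prime ∧ ((z.1 : ℚ) + 1) / ((z.2 : ℚ) + 1) = x * e}.Infinite ∧
      {z : ℕ × ℕ | z.1.Prime ∧ z.2.Prime ∧ ((z.1 : ℚ) - 1) / ((z.2 : ℚ) - 1) = x * e}.Infinite) ∧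
    (∃ δ : ℝ, 0 < δ ∧ ∃ X₀ : ℕ, ∀ X ≥ X₀, δ * (X : ℝ) ≤
      (((Icc 1 X).filter (fun r : ℕ =>
      {z : ℕ × ℕ | z.1.Prime ∧ z.2.Prime ∧ ((z.1 : ℚ) + 1) / ((z.2 : ℚ) + 1) = r}.Infinite ∧
      {z : ℕ × ℕ | z.1.Prime ∧ z.2.Prime ∧
        ((z.1 : ℚ) - 1) / ((z.2 : ℚ) - 1) = r}.Infinite)).card : ℝ)) := by
  have hMT : Pool.Agent.H355R2.MT.MaynardTao 2000 :=
    Pool.Agent.H355R2.MT.bridge 2000 Pool.Agent.H410R2.maynardTao
  obtain ⟨E, hE0, hE⟩ := syndetic 2000 hMT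
  have key : ∀ r : ℚ, Both r ↔
      {z : ℕ × ℕ | z.1.Prime ∧ z.2.Prime ∧ ((z.1 : ℚ) + 1) / ((z.2 : ℚ) + 1) = r}.Infinite ∧
      {z : ℕ × ℕ | z.1.Prime ∧ z.2.Prime ∧
        ((z.1 : ℚ) - 1) / ((z.2 : ℚ) - 1) = r}.Infinite := by
    intro r
    unfold Both Pool.Agent.H355R2.Schinzel.Rep
    push_cast
    simp only [sub_neg_eq_add]
  refine ⟨⟨E, hE0, fun x hx => ?_⟩, ?_⟩
  · obtain ⟨e, he, h⟩ := hE x hx
    exact ⟨e, he, (key _).1 h⟩
  · obtain ⟨δ, hδ, X₀, h⟩ := density Both E hE0 hE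
    refine ⟨δ, hδ, X₀, fun X hX => (h X hX).trans ?_⟩
    refine Nat.cast_le.2 (card_le_card ?_)
    intro r hr
    rw [mem_filter] at hr ⊢
    exact ⟨hr.1, (key _).1 hr.2⟩

end Pool.Agent.Results.MP_81c801_nt.SyndeticBoth
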